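import Mathlib
import Pool.Agent.V11212.OG.All

/-!
MP_7a6c3d_gt, Q1 (affirmative, with `L = 2`): orbit graphs of primitive origamis in `H(2)` contain
`2`-local `K_{3,3}` minors.
-/

set_option autoImplicit false

open Equiv

namespace Pool.Agent.Results.MP_7a6c3d_gt.LocalK33

open Pool.Agent.V11212.OG (Pairs cls T S SameOrbit orbitGraph HasLocalMinor K33 PrimH2)

/-- The classification of the `SL(2, ℤ)`-orbits of primitive `n`-square origamis in `H(2)`,
`n ≥ 4` (McMullen; Hubert–Lelièvre): one orbit for even `n`; for odd `n` the monodromy group is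
`Sym(n)` or `Alt(n)`, and origamis with the same monodromy group lie in one orbit. -/
def Classification (n : ℕ) : Prop :=
  ∀ h v h' v' : Perm (Fin n), PrimH2 h v → PrimH2 h' v' →
    (Even n → SameOrbit (cls h v) (cls h' v')) ∧
    (Odd n → (Subgroup.closure {h, v} = ⊤ ∨ Subgroup.closure {h, v} = alternatingGroup (Fin n)) ∧
      (Subgroup.closure {h, v} = Subgroup.closure {h', v'} → SameOrbit (cls h v) (cls h' v')))

/-- Orbit graphs of primitive origamis in `H(2)` contain `2`-local `K_{3,3}` minors: the orbits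
with an even number `n ≥ 4` of squares, those with an odd number `n ≥ 5` of squares and monodromy
group `Sym(n)`, and those with an odd number `n ≥ 7` of squares and monodromy group `Alt(n)`.
The last part states the same for every origami, given the classification. -/
theorem result :
    (∀ n : ℕ, 4 ≤ n → Even n → ∃ h v : Perm (Fin n), PrimH2 h v ∧
      HasLocalMinor K33 (orbitGraph (cls h v)) 2) ∧
    (∀ n : ℕ, 5 ≤ n → Odd n → ∃ h v : Perm (Fin n), PrimH2 h v ∧
      Subgroup.closure {h, v} = ⊤ ∧ HasLocalMinor K33 (orbitGraph (cls h v)) 2) ∧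
    (∀ n : ℕ, 7 ≤ n → Odd n → ∃ h v : Perm (Fin n), PrimH2 h v ∧
      Subgroup.closure {h, v} = alternatingGroup (Fin n) ∧
      HasLocalMinor K33 (orbitGraph (cls h v)) 2) ∧
    (∀ n : ℕ, 4 ≤ n → Classification n → ∀ h v : Perm (Fin n), PrimH2 h v →
      (n = 5 → Subgroup.closure {h, v} ≠ alternatingGroup (Fin n)) →
      HasLocalMinor K33 (orbitGraph (cls h v)) 2) := by
  have refl : ∀ {n : ℕ} (O : Pairs n), SameOrbit O O := fun O => Relation.EqvGen.refl O
  have hE : ∀ n : ℕ, 4 ≤ n → Even n → ∃ h v : Perm (Fin n), PrimH2 h v ∧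
      ∀ O, SameOrbit O (cls h v) → HasLocalMinor K33 (orbitGraph O) 2 := by
    intro n hn he
    by_cases h4 : n = 4
    · subst h4
      exact Pool.Agent.V11212.OG.main_4
    · have h6 : 6 ≤ n := by
        obtain ⟨k, hk⟩ := he
        omega
      obtain ⟨h, v, h1, -, h3⟩ := Pool.Agent.V11212.OG.main_A n h6
      exact ⟨h, v, h1, h3⟩
  have hA : ∀ n : ℕ, 5 ≤ n → Odd n → ∃ h v : Perm (Fin n), PrimH2 h v ∧
      Subgroup.closure {h, v} = ⊤ ∧
      ∀ O, SameOrbit O (cls h v) → HasLocalMinor K33 (orbitGraph O) 2 := by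
    intro n hn ho
    by_cases h5 : n = 5
    · subst h5
      exact Pool.Agent.V11212.OG.main_5
    · exact Pool.Agent.V11212.OG.main_A n (by omega)
  refine ⟨?_, ?_, ?_, ?_⟩
  · intro n hn he
    obtain ⟨h, v, h1, h2⟩ := hE n hn he
    exact ⟨h, v, h1, h2 _ (refl _)⟩
  · intro n hn ho
    obtain ⟨h, v, h1, h2, h3⟩ := hA n hn ho
    exact ⟨h, v, h1, h2, h3 _ (refl _)⟩
  · intro n hn ho
    obtain ⟨h, v, h1, h2, h3⟩ := Pool.Agent.V11212.OG.main_B n hn ho
    exact ⟨h, v, h1, h2, h3 _ (refl _)⟩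
  · intro n hn hcl h v hP h5
    rcases Nat.even_or_odd n with he | ho
    · obtain ⟨h', v', h1, h2⟩ := hE n hn he
      exact h2 _ ((hcl h v h' v' hP h1).1 he)
    · rcases ((hcl h v h v hP hP).2 ho).1 with hm | hm
      · have hn5 : 5 ≤ n := by
          obtain ⟨k, hk⟩ := ho
          omega
        obtain ⟨h', v', h1, h2, h3⟩ := hA n hn5 ho
        exact h3 _ (((hcl h v h' v' hP h1).2 ho).2 (by rw [hm, h2]))
      · have hn7 : 7 ≤ n := by
          have hne : n ≠ 5 := fun h => h5 h hm
          obtain ⟨k, hk⟩ := ho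
          omega
        obtain ⟨h', v', h1, h2, h3⟩ := Pool.Agent.V11212.OG.main_B n hn7 ho
        exact h3 _ (((hcl h v h' v' hP h1).2 ho).2 (by rw [hm, h2]))

end Pool.Agent.Results.MP_7a6c3d_gt.LocalK33
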